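import Pool.Agent.H51.CST.Targets

/-!
# Points on plane curves over finite fields: row COR
-/

set_option autoImplicit false

open Polynomial

namespace Pool.Agent.H12.CST

open Pool.Agent.H51.CST

/-- the case `d = 1` -/
theorem cor_one (k : Type) [Field k] [Finite k] (e : ℕ) (D : Dat k 1 e) :
    Nat.card k = {x0 : k | ∃ y : k, (at0 D.mu x0).eval y = 0}.ncard := by
  have h : {x0 : k | ∃ y : k, (at0 D.mu x0).eval y = 0} = Set.univ := by
    ext x0
    simp only [Set.mem_setOf_eq, Set.mem_univ, iff_true]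
    have hm : (at0 D.mu x0).Monic := D.monic.map _
    have hd : (at0 D.mu x0).natDegree = 1 := by
      unfold at0
      rw [D.monic.natDegree_map, D.deg]
    have h1 : (at0 D.mu x0) = X + C ((at0 D.mu x0).coeff 0) := by
      refine (Polynomial.eq_X_add_C_of_natDegree_le_one hd.le).trans ?_
      have : (at0 D.mu x0).coeff 1 = 1 := by
        have := hm.coeff_natDegree
        rwa [hd] at this
      rw [this]
      simp
    refine ⟨-(at0 D.mu x0).coeff 0, ?_⟩
    rw [h1]
    simp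
  rw [h, Set.ncard_univ]

/-- the auxiliary function lies in the filtration -/
theorem phi_mem (k : Type) [Field k] (d e : ℕ) (mu : k[X][X]) (q A B n : ℕ)
    (a : Fin A × Fin d × Fin B × Fin d → k)
    (hn : ∀ s : Fin A × Fin d × Fin B × Fin d,
      ((s.1 : ℕ) + q * (s.2.2.1 : ℕ)) + e * ((s.2.1 : ℕ) + q * (s.2.2.2 : ℕ)) ≤ n) :
    AdjoinRoot.mk mu (Phi q a) ∈ F1 mu e n := by
  unfold Phi
  rw [map_sum]
  refine Submodule.sum_mem _ fun s _ => ?_
  have h : AdjoinRoot.mk mu (C (C (a s) * X ^ ((s.1 : ℕ) + q * (s.2.2.1 : ℕ))) *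
      X ^ ((s.2.1 : ℕ) + q * (s.2.2.2 : ℕ))) =
      (a s) • (xR mu ^ ((s.1 : ℕ) + q * (s.2.2.1 : ℕ)) *
        yR mu ^ ((s.2.1 : ℕ) + q * (s.2.2.2 : ℕ)) * 1 ^ 0) := by
    rw [map_mul, map_pow, AdjoinRoot.mk_X, AdjoinRoot.mk_C, map_mul, map_pow, Algebra.smul_def]
    unfold xR yR
    rw [pow_zero, mul_one, mul_assoc]
    rfl
  rw [h]
  refine Submodule.smul_mem _ _ (Submodule.subset_span ?_)
  exact ⟨_, _, 0, by simpa using hn s, rfl⟩

/-- the coordinates of the derivative -/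
theorem der_deg (k : Type) [Field k] (d e : ℕ) (D : Dat k d e) (hd : 1 ≤ d) (j : ℕ) :
    ((derivative D.mu) %ₘ D.mu).coeff j = (derivative D.mu).coeff j ∧
      ((derivative D.mu).coeff j).natDegree ≤ e := by
  constructor
  · have : (derivative D.mu) %ₘ D.mu = derivative D.mu := by
      rw [Polynomial.modByMonic_eq_self_iff D.monic]
      refine Polynomial.degree_derivative_lt ?_
      exact D.monic.ne_zero
    rw [this]
  · rw [Polynomial.coeff_derivative]
    have h : ((j : k[X]) + 1) = C ((j : k) + 1) := by simp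
    rw [h]
    refine (Polynomial.natDegree_mul_le).trans ?_
    rw [Polynomial.natDegree_C, add_zero]
    exact D.bd _

/-- the count -/
theorem cnt_all (k : Type) [Field k] [Finite k] (mu : k[X][X]) (Del : k[X]) (del : ℕ)
    (hD : Del ≠ 0) (hdel : Del.natDegree ≤ del) :
    ∃ Z : Finset k, (∀ x0 ∈ Z, Del.eval x0 ≠ 0 ∧ ∀ y : k, (at0 mu x0).eval y ≠ 0) ∧
      Nat.card k ≤ {x0 : k | ∃ y : k, (at0 mu x0).eval y = 0}.ncard + Z.card + del := by
  classical
  haveI := Fintype.ofFinite k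
  refine ⟨Finset.univ.filter (fun x0 => Del.eval x0 ≠ 0 ∧ ∀ y : k, (at0 mu x0).eval y ≠ 0),
    fun x0 h => (Finset.mem_filter.1 h).2, ?_⟩
  have h1 : {x0 : k | ∃ y : k, (at0 mu x0).eval y = 0}.ncard =
      (Finset.univ.filter (fun x0 : k => ∃ y : k, (at0 mu x0).eval y = 0)).card := by
    rw [← Set.ncard_coe_finset]
    congr 1
    ext x0
    simp
  rw [h1, Nat.card_eq_fintype_card, ← Finset.card_univ]
  have h2 : Del.roots.toFinset.card ≤ del :=
    (Multiset.toFinset_card_le _).trans ((Polynomial.card_roots' Del).trans hdel)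
  refine le_trans ?_ (Nat.add_le_add_left h2 _)
  refine le_trans (Finset.card_le_card ?_) ((Finset.card_union_le _ _).trans
    (Nat.add_le_add_right (Finset.card_union_le _ _) _))
  intro x0 _
  simp only [Finset.mem_union, Finset.mem_filter, Finset.mem_univ, true_and,
    Multiset.mem_toFinset, Polynomial.mem_roots hD, Polynomial.IsRoot.def]
  by_cases h3 : ∃ y : k, (at0 mu x0).eval y = 0
  · exact Or.inl (Or.inl h3)
  · by_cases h4 : Del.eval x0 = 0
    · exact Or.inr h4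
    · exact Or.inl (Or.inr ⟨h4, fun y hy => h3 ⟨y, hy⟩⟩)

theorem pf_COR (_hFIL : T_FIL) (hRED : T_RED) (hCNV : T_CNV) (hPIG : T_PIG) (hHEN : T_HEN)
    (hLIN : T_LIN) (hNVR : T_NVR) (hZER : T_ZER) (hCNT : T_CNT) : T_COR := by
  intro d e hd he
  rcases Nat.lt_or_ge d 2 with hd2 | hd2
  · have h1 : d = 1 := by omega
    subst h1
    refine ⟨0, fun k _ _ D φ _ _ => ?_⟩
    have h := cor_one k e D
    omega
  · obtain ⟨t, rfl⟩ : ∃ t, d = t + 2 := ⟨d - 2, by omega⟩
    obtain ⟨v, hv⟩ : ∃ v : ℕ, v = pig e e (t + 2) + e * (t + 2) := ⟨_, rfl⟩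
    obtain ⟨del, hdel⟩ : ∃ del : ℕ, del = pig e e (t + 2) + e + 2 * e * (t + 2) := ⟨_, rfl⟩
    obtain ⟨m, hm⟩ : ∃ m : ℕ, m = 2 * (t + 2) * e := ⟨_, rfl⟩
    obtain ⟨M, hM⟩ : ∃ M : ℕ, M = 2 * (t + 2) * m := ⟨_, rfl⟩
    obtain ⟨B, hB⟩ : ∃ B : ℕ, B = (2 * t + 3) * m := ⟨_, rfl⟩
    obtain ⟨C0, hC0⟩ := hHEN (t + 2) e del v M hd he
    obtain ⟨E, hE⟩ : ∃ E : ℕ, E = B + (2 * del * M + (t + 2) * C0 + e * (t + 2)) + 1 := ⟨_, rfl⟩
    obtain ⟨A, hA⟩ : ∃ A : ℕ, A = 2 * (t + 2) * E := ⟨_, rfl⟩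
    refine ⟨4 * (t + 2) * (A + e * (t + 2) + del) + M + pig A e (t + 2) + A +
      2 * e * (t + 2) + 1, fun k _ _ D φ hφ hy => ?_⟩
    rcases Nat.lt_or_ge (4 * (t + 2) * (A + e * (t + 2) + del) + M + pig A e (t + 2) + A +
      2 * e * (t + 2) + 1) (Nat.card k) with hq | hq
    swap
    · omega
    -- the function `Δ`
    obtain ⟨c1, c2, c3, c4, c5, c6, c7⟩ := hCNV k (t + 2) e D hd
    have hcr : ∀ j, (crd D.monic (aeval (yR D.mu) (derivative D.mu)) j).natDegree ≤ e := by
      intro j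
      have h1 : aeval (yR D.mu) (derivative D.mu) = AdjoinRoot.mk D.mu (derivative D.mu) :=
        AdjoinRoot.aeval_eq _
      rw [h1, c5, (der_deg k (t + 2) e D hd j).1]
      exact (der_deg k (t + 2) e D hd j).2
    obtain ⟨V, Del, hV, hVF, hDel, hDeg, hVD⟩ := hPIG k (t + 2) e D e _ hd he hcr hy
    rw [mul_comm] at hVD
    rw [← hv] at hVF
    rw [← hdel] at hDeg
    obtain ⟨r, hr1, hr2, hr3⟩ := hC0 k D Del V hDel hDeg hV hVF hVD
    have hm0 : 1 ≤ m := by
      rw [hm]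
      exact Nat.mul_pos (by omega) he
    have hlin : M * ((A + 2 * del * M + (t + 2) * C0 + B + e * (t + 2) + 1) *
        ((t + 2) * (t + 2 - 1))) < A * (t + 2) * (B * (t + 2)) := by
      have e1 : A + 2 * del * M + (t + 2) * C0 + B + e * (t + 2) + 1 = A + E := by
        rw [hE]
        ring
      have e2 : t + 2 - 1 = t + 1 := by omega
      have e3 : A * (t + 2) * (B * (t + 2)) = M * ((A + E) * ((t + 2) * (t + 1))) +
          2 * ((t + 2) ^ 2 * m * E) := by
        rw [hM, hB]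
        nth_rewrite 1 [hA]
        nth_rewrite 1 [hA]
        ring
      rw [e1, e2, e3]
      have h4 : 0 < (t + 2) ^ 2 * m * E := by
        have : 0 < E := by omega
        positivity
      omega
    obtain ⟨a, ha0, ha⟩ := hLIN k (t + 2) e D Del r del M C0 A B hd2 he hDeg hr1 hlin
    have hne := hNVR k (t + 2) e D A B φ a hd he hφ ha0 (by omega)
    have hP0 : Phi (Nat.card k) a %ₘ D.mu ≠ 0 := by
      intro h0
      exact hne (AdjoinRoot.mk_eq_zero.2 ((Polynomial.modByMonic_eq_zero_iff_dvd D.monic).1 h0))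
    have hM0 : M ≤ Nat.card k := by omega
    obtain ⟨Z, hZ1, hZ2⟩ := cnt_all k D.mu Del del hDel hDeg
    have hdeg : ∀ j, ((Phi (Nat.card k) a %ₘ D.mu).coeff j).natDegree ≤
        A + e * (t + 2) + Nat.card k * (e * ((t + 2) * (4 * t + 7))) := by
      intro j
      rw [← c5]
      refine hRED k (t + 2) e D _ _ hd he (phi_mem k (t + 2) e D.mu _ A B _ a ?_) j
      rintro ⟨⟨s1, h1⟩, ⟨s2, h2⟩, ⟨s3, h3⟩, ⟨s4, h4⟩⟩
      simp only
      have g1 : s3 + e * s4 ≤ e * ((t + 2) * (4 * t + 7)) := by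
        have g2 : e * s4 ≤ e * (t + 1) := Nat.mul_le_mul_left _ (by omega)
        have g3 : B + e * (t + 1) + e = e * ((t + 2) * (4 * t + 7)) := by
          rw [hB, hm]
          ring
        omega
      have g4 : Nat.card k * (s3 + e * s4) ≤ Nat.card k * (e * ((t + 2) * (4 * t + 7))) :=
        Nat.mul_le_mul_left _ g1
      have g5 : e * s2 ≤ e * (t + 2) := Nat.mul_le_mul_left _ h2.le
      have g6 : s1 + Nat.card k * s3 + e * (s2 + Nat.card k * s4) =
          s1 + e * s2 + Nat.card k * (s3 + e * s4) := by ring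
      rw [g6]
      omega
    have hcnt := hCNT k _ _ M Z hP0 hdeg (fun x0 hx j => hZER k (t + 2) e D Del V r M A B a x0
      hd he hM0 hVD hr2 hr3 ha (hZ1 x0 hx).1 (hZ1 x0 hx).2 j)
    have hw : 4 * (t + 2) * Z.card ≤ (A + e * (t + 2)) + (4 * t + 7) * Nat.card k := by
      have w1 : (t + 2) * e * (4 * (t + 2) * Z.card) ≤
          (t + 2) * e * ((A + e * (t + 2)) + (4 * t + 7) * Nat.card k) := by
        have w2 : (t + 2) * e * (4 * (t + 2) * Z.card) = Z.card * M := by
          rw [hM, hm]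
          ring
        rw [w2]
        refine hcnt.trans ?_
        have w3 : 1 * (A + e * (t + 2)) ≤ (t + 2) * e * (A + e * (t + 2)) :=
          Nat.mul_le_mul_right _ (Nat.mul_pos (by omega) he)
        have w4 : (t + 2) * e * ((A + e * (t + 2)) + (4 * t + 7) * Nat.card k) =
            (t + 2) * e * (A + e * (t + 2)) + Nat.card k * (e * ((t + 2) * (4 * t + 7))) := by
          ring
        rw [w4]
        omega
      exact Nat.le_of_mul_le_mul_left w1 (Nat.mul_pos (by omega) he)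
    have hfin : 4 * (t + 2) * Nat.card k ≤ 4 * (t + 2) *
        ({x0 : k | ∃ y : k, (at0 D.mu x0).eval y = 0}.ncard + Z.card + del) :=
      Nat.mul_le_mul_left _ hZ2
    have x1 : 4 * (t + 2) * Nat.card k = Nat.card k + (4 * t + 7) * Nat.card k := by ring
    have x2 : 4 * (t + 2) * ({x0 : k | ∃ y : k, (at0 D.mu x0).eval y = 0}.ncard + Z.card +
        del) = 4 * (t + 2) * {x0 : k | ∃ y : k, (at0 D.mu x0).eval y = 0}.ncard +
          4 * (t + 2) * Z.card + 4 * (t + 2) * del := by ring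
    have x3 : 4 * (t + 2) * (A + e * (t + 2) + del) = 4 * (t + 2) * (A + e * (t + 2)) +
        4 * (t + 2) * del := by ring
    have x4 : A + e * (t + 2) ≤ 4 * (t + 2) * (A + e * (t + 2)) :=
      Nat.le_mul_of_pos_left _ (by omega)
    rw [x1, x2] at hfin
    rw [x3]
    omega

end Pool.Agent.H12.CST
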